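import Mathlib
import Pool.Agent.H586R3.AInfYs

/-!
# Baire dense subspaces of non-extendable functions in `A^∞(G)` (MP_2e37b9_an, Q1: full answer)

For every regular domain `G ⊂ ℂ` there is a dense vector subspace `E` of `A^∞(G)` such that
every non-zero element of `E` is non-extendable and `E` with the induced topology is a Baire space.
-/

set_option autoImplicit false

open Set Topology Filter TopologicalSpace

namespace Pool.Agent.Results.MP_2e37b9_an.DenseBaireSubspace

/-- An open set `G` is a regular domain if it is nonempty, connected and equal to the interior of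
its closure. -/
def IsRegularDomain (G : Opens ℂ) : Prop :=
  IsConnected (G : Set ℂ) ∧ (G : Set ℂ) = interior (closure (G : Set ℂ))

/-- The functions of `A^∞(G)` as a vector space: `f` is holomorphic on `G` and every derivative
`f^{(j)}`, `j ≥ 0`, extends continuously to the closure of `G`. A function on `G` is represented
by the function on `ℂ` that equals it on `G` and vanishes off `G`. -/
def aInftySubmodule (G : Opens ℂ) : Submodule ℂ (ℂ → ℂ) where
  carrier := {f | (∀ z, z ∉ G → f z = 0) ∧ DifferentiableOn ℂ f G ∧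
    ∀ j : ℕ, ∃ g : ℂ → ℂ, ContinuousOn g (closure G) ∧ ∀ z ∈ G, g z = iteratedDeriv j f z}
  zero_mem' := by
    refine ⟨fun _ _ => rfl, differentiableOn_const 0, fun j => ⟨fun _ => 0, continuousOn_const, ?_⟩⟩
    intro z _
    have : (0 : ℂ → ℂ) = fun _ => 0 := rfl
    rw [this, iteratedDeriv_const]
    split_ifs <;> rfl
  add_mem' := by
    rintro f h ⟨hf0, hf, hfj⟩ ⟨hh0, hh, hhj⟩
    refine ⟨fun z hz => ?_, hf.add hh, fun j => ?_⟩
    · show f z + h z = 0
      rw [hf0 z hz, hh0 z hz, add_zero]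
    · obtain ⟨a, ha, ha2⟩ := hfj j
      obtain ⟨b, hb, hb2⟩ := hhj j
      refine ⟨fun z => a z + b z, ha.add hb, fun z hz => ?_⟩
      have h1 : ContDiffAt ℂ j f z := (hf.contDiffOn G.isOpen).contDiffAt (G.isOpen.mem_nhds hz)
      have h2 : ContDiffAt ℂ j h z := (hh.contDiffOn G.isOpen).contDiffAt (G.isOpen.mem_nhds hz)
      rw [iteratedDeriv_add h1 h2, ← ha2 z hz, ← hb2 z hz]
  smul_mem' := by
    rintro c f ⟨hf0, hf, hfj⟩
    refine ⟨fun z hz => ?_, hf.const_smul c, fun j => ?_⟩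
    · show c • f z = 0
      rw [hf0 z hz, smul_zero]
    · obtain ⟨a, ha, ha2⟩ := hfj j
      refine ⟨fun z => c * a z, ha.const_mul c, fun z hz => ?_⟩
      have h1 : ContDiffAt ℂ j f z := (hf.contDiffOn G.isOpen).contDiffAt (G.isOpen.mem_nhds hz)
      have h2 : (c • f) = fun w => c • f w := rfl
      rw [h2, iteratedDeriv_fun_const_smul h1 c, ← ha2 z hz, smul_eq_mul]

/-- The space `A^∞(G)`. -/
def AInfty (G : Opens ℂ) : Type := ↥(aInftySubmodule G)

noncomputable instance (G : Opens ℂ) : AddCommGroup (AInfty G) :=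
  inferInstanceAs (AddCommGroup ↥(aInftySubmodule G))

noncomputable instance (G : Opens ℂ) : Module ℂ (AInfty G) :=
  inferInstanceAs (Module ℂ ↥(aInftySubmodule G))

variable {G : Opens ℂ}

/-- The underlying function of an element of `A^∞(G)`. -/
def AInfty.fn (f : AInfty G) : ℂ → ℂ := Subtype.val f

lemma AInfty.bdd (f : AInfty G) (j : ℕ) {K : Set ℂ} (hK : IsCompact K)
    (hKG : K ⊆ closure (G : Set ℂ)) :
    BddAbove (range fun z : ↥(K ∩ G) => ‖iteratedDeriv j f.fn z‖) := by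
  obtain ⟨a, ha, ha2⟩ := (Subtype.property f).2.2 j
  obtain ⟨C, hC⟩ := hK.exists_bound_of_continuousOn (ha.mono hKG)
  refine ⟨C, ?_⟩
  rintro _ ⟨⟨z, hzK, hzG⟩, rfl⟩
  have h1 := hC z hzK
  have h2 : a z = iteratedDeriv j f.fn z := ha2 z hzG
  rw [h2] at h1
  exact h1

lemma AInfty.contDiffAt (f : AInfty G) (j : ℕ) {z : ℂ} (hz : z ∈ G) : ContDiffAt ℂ j f.fn z :=
  ((Subtype.property f).2.1.contDiffOn G.isOpen).contDiffAt (G.isOpen.mem_nhds hz)

/-- The seminorms `f ↦ sup_{z ∈ K ∩ G} |f^{(j)}(z)|` of `A^∞(G)`, indexed by `j ≥ 0` and the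
compact subsets `K` of the closure of `G`. -/
noncomputable def supSeminorm (G : Opens ℂ)
    (i : ℕ × {K : Set ℂ // IsCompact K ∧ K ⊆ closure (G : Set ℂ)}) : Seminorm ℂ (AInfty G) where
  toFun f := ⨆ z : ↥(i.2.1 ∩ G), ‖iteratedDeriv i.1 f.fn z‖
  map_zero' := by
    have h1 : (0 : AInfty G).fn = fun _ => 0 := rfl
    have h2 : ∀ z : ℂ, iteratedDeriv i.1 (0 : AInfty G).fn z = 0 := by
      intro z
      rw [h1, iteratedDeriv_const]
      split_ifs <;> rfl
    simp only [h2, norm_zero]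
    exact Real.iSup_const_zero
  add_le' f h := by
    rcases isEmpty_or_nonempty ↥(i.2.1 ∩ G) with he | hne
    · simp
    · apply ciSup_le
      intro z
      have hz : (z : ℂ) ∈ G := z.2.2
      have h1 : iteratedDeriv i.1 (f + h).fn z =
          iteratedDeriv i.1 f.fn z + iteratedDeriv i.1 h.fn z :=
        iteratedDeriv_add (f.contDiffAt i.1 hz) (h.contDiffAt i.1 hz)
      rw [h1]
      exact (norm_add_le _ _).trans (add_le_add
        (le_ciSup (f.bdd i.1 i.2.2.1 i.2.2.2) z) (le_ciSup (h.bdd i.1 i.2.2.1 i.2.2.2) z))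
  neg' f := by
    congr 1
    funext z
    have h1 : iteratedDeriv i.1 (-f).fn z = - iteratedDeriv i.1 f.fn z :=
      iteratedDeriv_neg i.1 f.fn z
    rw [h1, norm_neg]
  smul' c f := by
    rw [Real.mul_iSup_of_nonneg (norm_nonneg c)]
    congr 1
    funext z
    have hz : (z : ℂ) ∈ G := z.2.2
    have h2 : (c • f).fn = fun w => c • f.fn w := rfl
    rw [h2, iteratedDeriv_fun_const_smul (f.contDiffAt i.1 hz) c, norm_smul]

instance : Nonempty (ℕ × {K : Set ℂ // IsCompact K ∧ K ⊆ closure (G : Set ℂ)}) :=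
  ⟨(0, ⟨∅, isCompact_empty, empty_subset _⟩)⟩

/-- The topology of `A^∞(G)` is the one generated by the seminorms `supSeminorm G`. -/
noncomputable instance : TopologicalSpace (AInfty G) :=
  (SeminormFamily.moduleFilterBasis (𝕜 := ℂ) (supSeminorm G)).topology

/-- `f ∈ H̃_e(G)`: there is no domain `Ω ⊋ G` with a holomorphic `F` on `Ω` that extends `f`. -/
def NonExtendable (G : Opens ℂ) (f : ℂ → ℂ) : Prop :=
  ¬ ∃ (Ω : Opens ℂ) (F : ℂ → ℂ), IsConnected (Ω : Set ℂ) ∧ (G : Set ℂ) ⊂ Ω ∧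
    DifferentiableOn ℂ F Ω ∧ ∀ z ∈ G, F z = f z

theorem withSeminorms_aInfty : WithSeminorms (𝕜 := ℂ) (supSeminorm G) := ⟨rfl⟩


open Pool.Agent.H586R3

lemma iteratedDeriv_ext_seq (g : JetSp (G : Set ℂ)) (j : ℕ) :
    ∀ z ∈ G, iteratedDeriv j (ext (g.seq 0)) z = ext (g.seq j) z := by
  induction j with
  | zero => intro z _; rw [iteratedDeriv_zero]
  | succ j ih =>
    intro z hz
    rw [iteratedDeriv_succ]
    have h1 : iteratedDeriv j (ext (g.seq 0)) =ᶠ[𝓝 z] ext (g.seq j) := by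
      filter_upwards [G.isOpen.mem_nhds hz] with w hw using ih w hw
    rw [h1.deriv_eq]
    exact (g.seq_mem j z hz).deriv

open Classical in
/-- the function on `G` of a jet -/
noncomputable def fnOf (g : JetSp (G : Set ℂ)) (z : ℂ) : ℂ := if z ∈ G then ext (g.seq 0) z else 0

lemma fnOf_of_mem (g : JetSp (G : Set ℂ)) {z : ℂ} (hz : z ∈ G) : fnOf g z = ext (g.seq 0) z := by
  simp [fnOf, hz]

lemma fnOf_of_notMem (g : JetSp (G : Set ℂ)) {z : ℂ} (hz : z ∉ G) : fnOf g z = 0 := by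
  simp [fnOf, hz]

lemma iteratedDeriv_fnOf (g : JetSp (G : Set ℂ)) (j : ℕ) {z : ℂ} (hz : z ∈ G) :
    iteratedDeriv j (fnOf g) z = ext (g.seq j) z := by
  rw [← iteratedDeriv_ext_seq g j z hz]
  apply Filter.EventuallyEq.iteratedDeriv_eq
  filter_upwards [G.isOpen.mem_nhds hz] with w hw using fnOf_of_mem g hw

lemma fnOf_mem (g : JetSp (G : Set ℂ)) : fnOf g ∈ aInftySubmodule G := by
  refine ⟨fun z hz => fnOf_of_notMem g hz, ?_, fun j => ⟨ext (g.seq j), continuousOn_ext _,
    fun z hz => (iteratedDeriv_fnOf g j hz).symm⟩⟩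
  intro z hz
  have h1 : fnOf g =ᶠ[𝓝 z] ext (g.seq 0) := by
    filter_upwards [G.isOpen.mem_nhds hz] with w hw using fnOf_of_mem g hw
  exact ((g.seq_mem 0 z hz).differentiableAt.congr_of_eventuallyEq h1).differentiableWithinAt

/-- the identification of the two models, as a linear map -/
noncomputable def eL : JetSp (G : Set ℂ) →ₗ[ℂ] AInfty G where
  toFun g := ⟨fnOf g, fnOf_mem g⟩
  map_add' g h := by
    apply Subtype.ext
    funext z
    show fnOf (g + h) z = fnOf g z + fnOf h z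
    by_cases hz : z ∈ G
    · rw [fnOf_of_mem _ hz, fnOf_of_mem _ hz, fnOf_of_mem _ hz]
      exact ext_add _ _ z
    · rw [fnOf_of_notMem _ hz, fnOf_of_notMem _ hz, fnOf_of_notMem _ hz, add_zero]
  map_smul' c g := by
    apply Subtype.ext
    funext z
    show fnOf (c • g) z = c * fnOf g z
    by_cases hz : z ∈ G
    · rw [fnOf_of_mem _ hz, fnOf_of_mem _ hz]
      exact ext_smul _ _ z
    · rw [fnOf_of_notMem _ hz, fnOf_of_notMem _ hz, mul_zero]

lemma eL_fn (g : JetSp (G : Set ℂ)) : (eL g).fn = fnOf g := rfl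

lemma eL_injective : Function.Injective (eL : JetSp (G : Set ℂ) →ₗ[ℂ] AInfty G) := by
  intro g h hgh
  apply jet_eq_of_ev G.isOpen
  intro z hz
  rw [evL_eq_ext, evL_eq_ext]
  have h1 : (eL g).fn z = (eL h).fn z := by rw [hgh]
  rw [eL_fn, eL_fn, fnOf_of_mem _ hz, fnOf_of_mem _ hz] at h1
  exact h1

lemma differentiableOn_iteratedDeriv {f : ℂ → ℂ} {U : Set ℂ} (hU : IsOpen U)
    (hf : DifferentiableOn ℂ f U) (j : ℕ) : DifferentiableOn ℂ (iteratedDeriv j f) U := by
  induction j with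
  | zero => rw [iteratedDeriv_zero]; exact hf
  | succ j ih => rw [iteratedDeriv_succ]; exact ih.deriv hU

lemma eL_surjective : Function.Surjective (eL : JetSp (G : Set ℂ) →ₗ[ℂ] AInfty G) := by
  intro f
  obtain ⟨hf0, hfd, hfj⟩ := Subtype.property f
  choose a ha ha2 using hfj
  set s : ℕ → C(closure (G : Set ℂ), ℂ) := fun j =>
    ⟨(closure (G : Set ℂ)).domRestrict (a j), continuousOn_iff_continuous_domRestrict.1 (ha j)⟩ with hs
  have hsa : ∀ j, ∀ z ∈ G, ext (s j) z = iteratedDeriv j f.fn z := by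
    intro j z hz
    rw [ext_of_mem _ (subset_closure hz)]
    exact ha2 j z hz
  have hmem : s ∈ jets (G : Set ℂ) := by
    intro j z hz
    have h1 : ext (s j) =ᶠ[𝓝 z] iteratedDeriv j f.fn := by
      filter_upwards [G.isOpen.mem_nhds hz] with w hw using hsa j w hw
    rw [hsa (j + 1) z hz]
    refine HasDerivAt.congr_of_eventuallyEq ?_ h1
    rw [iteratedDeriv_succ]
    have h3 : DifferentiableAt ℂ (iteratedDeriv j f.fn) z :=
      (differentiableOn_iteratedDeriv G.isOpen hfd j).differentiableAt (G.isOpen.mem_nhds hz)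
    exact h3.hasDerivAt
  refine ⟨JetSp.mk' s hmem, ?_⟩
  apply Subtype.ext
  funext z
  show fnOf (JetSp.mk' s hmem) z = f.fn z
  by_cases hz : z ∈ G
  · rw [fnOf_of_mem _ hz]
    have := hsa 0 z hz
    rw [iteratedDeriv_zero] at this
    exact this
  · rw [fnOf_of_notMem _ hz]
    exact (hf0 z hz).symm

/-- the identification of the two models -/
noncomputable def eE : JetSp (G : Set ℂ) ≃ₗ[ℂ] AInfty G :=
  LinearEquiv.ofBijective eL ⟨eL_injective, eL_surjective⟩

lemma eE_fn (g : JetSp (G : Set ℂ)) : (eE g).fn = fnOf g := rfl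

lemma continuous_eE : Continuous (eE : JetSp (G : Set ℂ) → AInfty G) := by
  refine WithSeminorms.continuous_of_continuous_comp withSeminorms_aInfty
    (eE : JetSp (G : Set ℂ) ≃ₗ[ℂ] AInfty G).toLinearMap ?_
  rintro ⟨j, K, hK, hKG⟩
  set K' : Set (closure (G : Set ℂ)) := (↑) ⁻¹' K with hK'
  have hK'c : IsCompact K' := (isClosed_closure.isClosedEmbedding_subtypeVal).isCompact_preimage hK
  have : CompactSpace K' := isCompact_iff_compactSpace.1 hK'c
  set R : JetSp (G : Set ℂ) →ₗ[ℂ] C(K', ℂ) :=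
    { toFun := fun g => (g.seq j).restrict K'
      map_add' := fun _ _ => rfl
      map_smul' := fun _ _ => rfl } with hR
  have hq : Continuous ((normSeminorm ℂ C(K', ℂ)).comp R) := by
    have h1 : Continuous (fun g : JetSp (G : Set ℂ) => (g.seq j).restrict K') :=
      (ContinuousMap.continuous_restrict K').comp ((continuous_apply j).comp JetSp.continuous_seq)
    exact continuous_norm.comp h1
  refine Seminorm.continuous_of_le hq ?_
  intro g
  show (⨆ z : ↥(K ∩ G), ‖iteratedDeriv j (fnOf g) z‖) ≤ ‖(g.seq j).restrict K'‖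
  apply Real.iSup_le _ (norm_nonneg _)
  rintro ⟨z, hzK, hzG⟩
  have hz : z ∈ closure (G : Set ℂ) := subset_closure hzG
  show ‖iteratedDeriv j (fnOf g) z‖ ≤ _
  rw [iteratedDeriv_fnOf g j hzG, ext_of_mem _ hz]
  exact ContinuousMap.norm_coe_le_norm ((g.seq j).restrict K') ⟨⟨z, hz⟩, hzK⟩

lemma continuous_eE_symm : Continuous (eE.symm : AInfty G → JetSp (G : Set ℂ)) := by
  rw [JetSp.continuous_iff]
  intro j
  have : IsTopologicalAddGroup (AInfty G) := withSeminorms_aInfty.topologicalAddGroup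
  set φ : AInfty G →+ C(closure (G : Set ℂ), ℂ) :=
    { toFun := fun f => (eE.symm f).seq j
      map_zero' := by rw [map_zero]; rfl
      map_add' := fun f h => by rw [map_add]; rfl } with hφ
  have h0 : ContinuousAt φ 0 := by
    rw [ContinuousAt, map_zero]
    rw [ContinuousMap.tendsto_iff_forall_isCompact_tendstoUniformlyOn]
    intro K hK
    rw [Metric.tendstoUniformlyOn_iff]
    intro ε hε
    set K₁ : Set ℂ := Metric.cthickening 1 (Subtype.val '' K) ∩ closure (G : Set ℂ) with hK₁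
    have hK₁c : IsCompact K₁ :=
      ((hK.image continuous_subtype_val).cthickening).inter_right isClosed_closure
    have hp := withSeminorms_aInfty.continuous_seminorm
      (⟨j, ⟨K₁, hK₁c, inter_subset_right⟩⟩ : ℕ × {K : Set ℂ // IsCompact K ∧ K ⊆ closure (G : Set ℂ)})
    have hp0 := hp.tendsto (0 : AInfty G)
    rw [map_zero] at hp0
    have hev : ∀ᶠ f in 𝓝 (0 : AInfty G), supSeminorm G ⟨j, ⟨K₁, hK₁c, inter_subset_right⟩⟩ f < ε / 2 :=
      hp0.eventually (gt_mem_nhds (by positivity))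
    filter_upwards [hev] with f hf z hz
    show dist (0 : ℂ) ((eE.symm f).seq j z) < ε
    rw [dist_zero_left]
    set g := eE.symm f with hg
    have hfg : f.fn = fnOf g := by rw [← eE_fn, hg, LinearEquiv.apply_symm_apply]
    have hzc : (z : ℂ) ∈ closure (G : Set ℂ) := z.2
    have hne : (𝓝[(G : Set ℂ)] (z : ℂ)).NeBot := mem_closure_iff_nhdsWithin_neBot.1 hzc
    have ht : Tendsto (fun w => ‖ext (g.seq j) w‖) (𝓝[(G : Set ℂ)] (z : ℂ)) (𝓝 ‖ext (g.seq j) z‖) :=
      ((continuousOn_ext (g.seq j)) z hzc).norm.mono_left (nhdsWithin_mono _ subset_closure)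
    have hle : ‖ext (g.seq j) z‖ ≤ ε / 2 := by
      apply le_of_tendsto ht
      have hball : ∀ᶠ w in 𝓝[(G : Set ℂ)] (z : ℂ), w ∈ Metric.ball (z : ℂ) 1 :=
        mem_nhdsWithin_of_mem_nhds (Metric.ball_mem_nhds _ one_pos)
      filter_upwards [self_mem_nhdsWithin, hball] with w hwG hwb
      have hwK : w ∈ K₁ := by
        refine ⟨?_, subset_closure hwG⟩
        exact Metric.mem_cthickening_of_dist_le w (z : ℂ) 1 (Subtype.val '' K)
          (mem_image_of_mem _ hz) (Metric.mem_ball.1 hwb).le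
      have h1 := le_ciSup (f.bdd j hK₁c inter_subset_right)
        (⟨w, hwK, hwG⟩ : ↥(K₁ ∩ (G : Set ℂ)))
      have h2 : ‖iteratedDeriv j f.fn w‖ ≤ supSeminorm G ⟨j, ⟨K₁, hK₁c, inter_subset_right⟩⟩ f := h1
      rw [hfg, iteratedDeriv_fnOf g j hwG] at h2
      linarith
    rw [ext_of_mem _ hzc] at hle
    exact hle.trans_lt (by linarith)
  exact continuous_of_continuousAt_zero φ h0

/-- the two models are homeomorphic -/
noncomputable def eH : JetSp (G : Set ℂ) ≃ₜ AInfty G where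
  toEquiv := eE.toEquiv
  continuous_toFun := continuous_eE
  continuous_invFun := continuous_eE_symm

/-- an extendable function has a convergent Taylor series at some point of a dense set of boundary
points -/
lemma extendable_aux {Z : Set ℂ} (hZG : Z ⊆ closure (G : Set ℂ)) (hne : (G : Set ℂ).Nonempty)
    (hZd : ∀ U : Set ℂ, IsOpen U → (U ∩ frontier (G : Set ℂ)).Nonempty → (U ∩ Z).Nonempty)
    (g : JetSp (G : Set ℂ)) (h : ¬ NonExtendable G (fnOf g)) :
    ∃ (ζ : ℂ) (hζ : ζ ∈ Z), g ∈ Yc ⟨ζ, hZG hζ⟩ := by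
  rw [NonExtendable, not_not] at h
  obtain ⟨Ω, F, hΩ, hGΩ, hF, hFf⟩ := h
  have hfr : ((Ω : Set ℂ) ∩ frontier (G : Set ℂ)).Nonempty := by
    by_contra hcon
    rw [not_nonempty_iff_eq_empty] at hcon
    have hcov : (Ω : Set ℂ) ⊆ (G : Set ℂ) ∪ (closure (G : Set ℂ))ᶜ := by
      intro z hz
      by_cases h1 : z ∈ closure (G : Set ℂ)
      · left
        by_contra h2
        have h3 : z ∈ frontier (G : Set ℂ) := by
          rw [G.isOpen.frontier_eq]
          exact ⟨h1, h2⟩
        have h4 : z ∈ ((Ω : Set ℂ) ∩ frontier (G : Set ℂ)) := ⟨hz, h3⟩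
        rw [hcon] at h4
        exact h4
      · right; exact h1
    obtain ⟨x, hx, hxG⟩ := exists_of_ssubset hGΩ
    obtain ⟨y, hy⟩ := hne
    obtain ⟨w, hw, hw1, hw2⟩ := hΩ.isPreconnected (G : Set ℂ) (closure (G : Set ℂ))ᶜ G.isOpen
      isClosed_closure.isOpen_compl hcov ⟨y, hGΩ.1 hy, hy⟩ ⟨x, hx, by
        rcases hcov hx with h1 | h1
        · exact absurd h1 hxG
        · exact h1⟩
    exact hw2 (subset_closure hw1)
  obtain ⟨ζ, hζΩ, hζZ⟩ := hZd (Ω : Set ℂ) Ω.isOpen hfr
  refine ⟨ζ, hζZ, ?_⟩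
  have hζc : ζ ∈ closure (G : Set ℂ) := hZG hζZ
  obtain ⟨ρ, hρ, hball⟩ := Metric.isOpen_iff.1 Ω.isOpen ζ hζΩ
  set r : ℝ := ρ / 2 with hr
  have hr0 : 0 < r := by positivity
  have hsub : Metric.closedBall ζ r ⊆ (Ω : Set ℂ) :=
    (Metric.closedBall_subset_ball (by rw [hr]; linarith)).trans hball
  obtain ⟨M, hM⟩ := (isCompact_closedBall ζ r).exists_bound_of_continuousOn
    (hF.continuousOn.mono hsub)
  have hd : DiffContOnCl ℂ F (Metric.ball ζ r) := hF.diffContOnCl_ball hsub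
  have hval : ∀ j : ℕ, evL j ⟨ζ, hZG hζZ⟩ g = iteratedDeriv j F ζ := by
    intro j
    rw [evL_eq_ext]
    have hne' : (𝓝[(G : Set ℂ)] ζ).NeBot := mem_closure_iff_nhdsWithin_neBot.1 hζc
    have ht1 : Tendsto (ext (g.seq j)) (𝓝[(G : Set ℂ)] ζ) (𝓝 (ext (g.seq j) ζ)) :=
      ((continuousOn_ext (g.seq j)) ζ hζc).mono_left (nhdsWithin_mono _ subset_closure)
    have ht2 : Tendsto (iteratedDeriv j F) (𝓝[(G : Set ℂ)] ζ) (𝓝 (iteratedDeriv j F ζ)) := by
      have h1 := (differentiableOn_iteratedDeriv Ω.isOpen hF j).differentiableAt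
        (Ω.isOpen.mem_nhds hζΩ)
      exact h1.continuousAt.tendsto.mono_left nhdsWithin_le_nhds
    refine tendsto_nhds_unique_of_eventuallyEq ht1 ht2 ?_
    filter_upwards [self_mem_nhdsWithin] with w hw
    rw [← iteratedDeriv_fnOf g j hw]
    apply Filter.EventuallyEq.iteratedDeriv_eq
    filter_upwards [G.isOpen.mem_nhds hw] with v hv using (hFf v hv).symm
  obtain ⟨S, hS⟩ := exists_nat_ge (max M (1 / r))
  refine ⟨S, fun j => ?_⟩
  rw [hval j]
  have h1 := Complex.norm_iteratedDeriv_le_of_forall_mem_sphere_norm_le j hr0 hd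
    (fun z hz => hM z (Metric.sphere_subset_closedBall hz))
  refine h1.trans ?_
  have hfac : (0 : ℝ) ≤ (j.factorial : ℝ) := Nat.cast_nonneg _
  have hM0 : 0 ≤ M := (norm_nonneg _).trans (hM ζ (Metric.mem_closedBall_self hr0.le))
  have hS1 : M ≤ S := (le_max_left _ _).trans hS
  have hS2 : 1 / r ≤ S := (le_max_right _ _).trans hS
  calc (j.factorial : ℝ) * M / r ^ j = (M * (1 / r) ^ j) * (j.factorial : ℝ) := by
        rw [one_div, inv_pow]; field_simp
    _ ≤ ((S : ℝ) * (S : ℝ) ^ j) * (j.factorial : ℝ) := by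
        apply mul_le_mul_of_nonneg_right _ hfac
        exact mul_le_mul hS1 (pow_le_pow_left₀ (by positivity) hS2 j) (by positivity)
          (Nat.cast_nonneg _)
    _ = (S : ℝ) ^ (j + 1) * (j.factorial : ℝ) := by rw [pow_succ']

/-- **Q1.** For every regular domain `G` there is a dense vector subspace `E` of `A^∞(G)` with
`E \ {0} ⊆ H̃_e(G)` which is a Baire space in the induced topology. -/
theorem result (G : Opens ℂ) (hG : IsRegularDomain G) :
    ∃ E : Submodule ℂ (AInfty G), Dense (E : Set (AInfty G)) ∧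
      (∀ f ∈ E, f ≠ 0 → NonExtendable G f.fn) ∧ BaireSpace E := by
  obtain ⟨s, hs, hsd⟩ := TopologicalSpace.exists_countable_dense ↥(frontier (G : Set ℂ))
  set Z : Set ℂ := Subtype.val '' s with hZdef
  have hZ : Z.Countable := hs.image _
  have hZf : Z ⊆ frontier (G : Set ℂ) := by
    rintro _ ⟨y, _, rfl⟩; exact y.2
  have hZG : Z ⊆ closure (G : Set ℂ) := hZf.trans frontier_subset_closure
  have hZe : ∀ ζ ∈ Z, ∀ ε : ℝ, 0 < ε → ∃ b, b ∉ closure (G : Set ℂ) ∧ ‖ζ - b‖ < ε := by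
    intro ζ hζ ε hε
    by_contra hcon
    push Not at hcon
    have h1 : Metric.ball ζ ε ⊆ closure (G : Set ℂ) := by
      intro b hb
      by_contra hb2
      have := hcon b hb2
      rw [Metric.mem_ball, dist_comm, dist_eq_norm] at hb
      linarith
    have h2 : ζ ∈ interior (closure (G : Set ℂ)) :=
      mem_interior.2 ⟨Metric.ball ζ ε, h1, Metric.isOpen_ball, Metric.mem_ball_self hε⟩
    rw [← hG.2] at h2
    have h3 := hZf hζ
    rw [G.isOpen.frontier_eq] at h3
    exact h3.2 h2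
  have hZd : ∀ U : Set ℂ, IsOpen U → (U ∩ frontier (G : Set ℂ)).Nonempty → (U ∩ Z).Nonempty := by
    rintro U hU ⟨x, hxU, hxf⟩
    obtain ⟨y, hys, hyU⟩ := hsd.exists_mem_open (hU.preimage continuous_subtype_val)
      ⟨(⟨x, hxf⟩ : ↥(frontier (G : Set ℂ))), hxU⟩
    exact ⟨y.1, hyU, ⟨y, hys, rfl⟩⟩
  obtain ⟨E0, hE1, hE2, hE3⟩ := exists_jets_subspace G.isOpen hG.1.nonempty Z hZ hZG hZe
  refine ⟨E0.map (eE : JetSp (G : Set ℂ) ≃ₗ[ℂ] AInfty G).toLinearMap, ?_, ?_, ?_⟩
  · have h1 : Dense (eH '' (E0 : Set (JetSp (G : Set ℂ)))) :=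
      eH.surjective.denseRange.dense_image eH.continuous hE1
    exact h1
  · rintro f ⟨g, hg, rfl⟩ hf0
    have hg0 : g ≠ 0 := by
      rintro rfl
      exact hf0 (map_zero _)
    by_contra hcon
    obtain ⟨ζ, hζ, hmem⟩ := extendable_aux hZG hG.1.nonempty hZd g hcon
    exact hE2 g hg hg0 ζ hζ hmem
  · have h1 : E0 ≃ₜ (eH '' (E0 : Set (JetSp (G : Set ℂ)))) := eH.image (E0 : Set (JetSp (G : Set ℂ)))
    have h2 : BaireSpace (eH '' (E0 : Set (JetSp (G : Set ℂ)))) := h1.baireSpace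
    exact h2

end Pool.Agent.Results.MP_2e37b9_an.DenseBaireSubspace
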